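import Pool.Agent.H629.GC.Stm

set_option autoImplicit false

open MeasureTheory ProbabilityTheory Set Filter
open scoped ENNReal Topology

namespace Pool.Agent.H251.GC.B1

open Pool.Agent.H629.GC

/-! ### lists -/

theorem exists_max {α : Type*} (l : List α) (hl : l ≠ []) (f : α → ℝ) :
    ∃ a ∈ l, ∀ b ∈ l, f b ≤ f a := by
  classical
  obtain ⟨a, ha, h⟩ := Finset.exists_max_image l.toFinset f (by
    obtain ⟨x, hx⟩ := List.exists_mem_of_ne_nil l hl
    exact ⟨x, List.mem_toFinset.2 hx⟩)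
  exact ⟨a, List.mem_toFinset.1 ha, fun b hb => h b (List.mem_toFinset.2 hb)⟩

theorem sum_nn {α : Type*} (l : List α) (f : α → ℝ) (hf : ∀ b ∈ l, 0 ≤ f b) :
    0 ≤ (l.map f).sum := by
  refine List.sum_nonneg ?_
  intro x hx
  obtain ⟨b, hb, rfl⟩ := List.mem_map.1 hx
  exact hf b hb

theorem le_sum {α : Type*} (l : List α) (f : α → ℝ) (hf : ∀ b ∈ l, 0 ≤ f b) {a : α} (ha : a ∈ l) :
    f a ≤ (l.map f).sum := by
  refine List.single_le_sum ?_ _ (List.mem_map_of_mem ha)
  intro x hx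
  obtain ⟨b, hb, rfl⟩ := List.mem_map.1 hx
  exact hf b hb

theorem sum_mono {α : Type*} (l : List α) (f g : α → ℝ) (h : ∀ b ∈ l, f b ≤ g b) :
    (l.map f).sum ≤ (l.map g).sum := by
  induction l with
  | nil => simp
  | cons a l ih =>
    rw [List.map_cons, List.sum_cons, List.map_cons, List.sum_cons]
    exact add_le_add (h a List.mem_cons_self) (ih fun b hb => h b (List.mem_cons_of_mem _ hb))

theorem sum_bound {α : Type*} {l : List α} (hl : l ≠ []) {x : α → ℝ} (hx : ∀ a ∈ l, 0 ≤ x a)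
    {N : ℕ} (hN : l.length ≤ N) (φ : ℝ → ℝ) (h0 : ∀ y, 0 ≤ y → 0 ≤ φ y)
    (hm : ∀ y z, 0 ≤ y → y ≤ z → φ y ≤ φ z) :
    φ ((l.map x).sum) ≤ (l.map (fun a => φ (N * x a))).sum := by
  obtain ⟨a, ha, h⟩ := exists_max l hl x
  have h1 : (l.map x).sum ≤ N * x a := by
    have := List.sum_le_card_nsmul (l.map x) (x a) (by
      intro y hy
      obtain ⟨b, hb, rfl⟩ := List.mem_map.1 hy
      exact h b hb)
    rw [List.length_map, nsmul_eq_mul] at this
    exact this.trans (mul_le_mul_of_nonneg_right (by exact_mod_cast hN) (hx a ha))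
  refine (hm _ _ (sum_nn l x hx) h1).trans (le_sum l (fun a => φ (N * x a)) (fun b hb => ?_) ha)
  exact h0 _ (mul_nonneg (Nat.cast_nonneg _) (hx b hb))

theorem sum_const {α : Type*} (l : List α) (f : α → ℝ) (c : ℝ) (h : ∀ b ∈ l, f b ≤ c) :
    (l.map f).sum ≤ l.length * c := by
  have := List.sum_le_card_nsmul (l.map f) c (by
      intro y hy
      obtain ⟨b, hb, rfl⟩ := List.mem_map.1 hy
      exact h b hb)
  rwa [List.length_map, nsmul_eq_mul] at this

theorem int_list {α Ω : Type*} [MeasurableSpace Ω] {P : Measure Ω} {l : List α} {f : α → Ω → ℝ}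
    (h : ∀ a ∈ l, Integrable (f a) P) :
    Integrable (fun ω => (l.map fun a => f a ω).sum) P ∧
      ∫ ω, (l.map fun a => f a ω).sum ∂P = (l.map fun a => ∫ ω, f a ω ∂P).sum := by
  induction l with
  | nil => simp
  | cons a l ih =>
    obtain ⟨h1, h2⟩ := ih fun b hb => h b (List.mem_cons_of_mem _ hb)
    have h3 := h a List.mem_cons_self
    simp only [List.map_cons, List.sum_cons]
    refine ⟨h3.add h1, ?_⟩
    rw [integral_add h3 h1, h2]

/-! ### the core estimate -/

theorem rpow_le_exp {y q : ℝ} (hy : 0 ≤ y) (hq : 0 ≤ q) : y ^ q ≤ Real.exp (q * y) := by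
  have h1 : y ≤ Real.exp y := by linarith [Real.add_one_le_exp y]
  calc y ^ q ≤ (Real.exp y) ^ q := Real.rpow_le_rpow hy h1 hq
    _ = Real.exp (q * y) := by rw [← Real.exp_mul, mul_comm]

section core

variable {Ω : Type*} [MeasurableSpace Ω] {P : Measure Ω} [IsProbabilityMeasure P] {Y : Ω → ℝ}

theorem int_of_le (hE : ∀ t : ℝ, 0 ≤ t → Integrable (fun ω => Real.exp (t * |Y ω|)) P)
    {f : Ω → ℝ} (hf : Measurable f) {t : ℝ} (ht : 0 ≤ t)
    (h : ∀ ω, |f ω| ≤ Real.exp (t * |Y ω|)) : Integrable f P := by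
  refine (hE t ht).mono' hf.aestronglyMeasurable (Filter.Eventually.of_forall fun ω => ?_)
  rw [Real.norm_eq_abs]
  exact h ω

theorem memLp_of (hE : ∀ t : ℝ, 0 ≤ t → Integrable (fun ω => Real.exp (t * |Y ω|)) P)
    {f : Ω → ℝ} (hf : Measurable f) {t q : ℝ} (ht : 0 ≤ t) (hq : 0 < q)
    (h : ∀ ω, |f ω| ≤ Real.exp (t * |Y ω|)) : MemLp f (ENNReal.ofReal q) P := by
  rw [← integrable_norm_rpow_iff hf.aestronglyMeasurable (by simpa using hq) ENNReal.ofReal_ne_top]
  rw [ENNReal.toReal_ofReal hq.le]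
  refine int_of_le hE (hf.norm.pow_const q) (t := t * q) (by positivity) fun ω => ?_
  rw [Real.norm_eq_abs, abs_of_nonneg (by positivity)]
  calc |f ω| ^ q ≤ (Real.exp (t * |Y ω|)) ^ q := Real.rpow_le_rpow (abs_nonneg _) (h ω) hq.le
    _ = Real.exp (t * q * |Y ω|) := by rw [← Real.exp_mul]; ring_nf

theorem pow_le_exp' (k : ℕ) (y : ℝ) : |y| ^ k ≤ Real.exp (k * |y|) := by
  have h1 := rpow_le_exp (abs_nonneg y) (Nat.cast_nonneg (α := ℝ) k)
  rwa [Real.rpow_natCast] at h1

theorem holder (hY : Measurable Y)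
    (hE : ∀ t : ℝ, 0 ≤ t → Integrable (fun ω => Real.exp (t * |Y ω|)) P) {p : ℝ} {k : ℕ}
    (hk : 1 ≤ k) (hp : (k : ℝ) < p) {g : Ω → ℝ} (hg : Measurable g) (hg0 : ∀ ω, 0 ≤ g ω)
    (hg1 : ∀ ω, g ω ≤ Real.exp (|Y ω|)) :
    ∫ ω, |Y ω| ^ k * g ω ∂P ≤ ((∫ ω, |Y ω| ^ p ∂P) ^ (1 / p)) ^ k *
      (∫ ω, g ω ^ (p / (p - k)) ∂P) ^ ((p - k) / p) := by
  have hk0 : (0 : ℝ) < k := by exact_mod_cast hk
  have hp0 : 0 < p := hk0.trans hp
  have hpk : 0 < p - k := by linarith
  have hconj : (p / k).HolderConjugate (p / (p - k)) := by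
    rw [Real.holderConjugate_iff]
    refine ⟨by rw [lt_div_iff₀ hk0]; linarith, ?_⟩
    rw [inv_div, inv_div]
    field_simp
    ring
  have h1 := integral_mul_le_Lp_mul_Lq_of_nonneg (μ := P) hconj (f := fun ω => |Y ω| ^ k) (g := g)
    (Filter.Eventually.of_forall fun ω => by positivity)
    (Filter.Eventually.of_forall fun ω => hg0 ω)
    (memLp_of hE (hY.abs.pow_const k) (t := k) hk0.le (by positivity) (fun ω => by
      rw [abs_of_nonneg (by positivity)]
      exact pow_le_exp' k _))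
    (memLp_of hE hg (t := 1) zero_le_one (by positivity) (fun ω => by
      rw [abs_of_nonneg (hg0 ω), one_mul]
      exact hg1 ω))
  refine h1.trans (le_of_eq ?_)
  have h2 : ∀ ω, (|Y ω| ^ k) ^ (p / k) = |Y ω| ^ p := by
    intro ω
    rw [← Real.rpow_natCast, ← Real.rpow_mul (abs_nonneg _)]
    congr 1
    field_simp
  simp only [h2]
  have h3 : (∫ ω, |Y ω| ^ p ∂P) ^ (1 / (p / k)) = ((∫ ω, |Y ω| ^ p ∂P) ^ (1 / p)) ^ k := by
    rw [← Real.rpow_natCast, ← Real.rpow_mul (integral_nonneg fun ω => by positivity)]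
    congr 1
    field_simp
  rw [h3, one_div_div]

theorem exp_taylor (y : ℝ) : |Real.exp y - (1 + y + y ^ 2 / 2)| ≤ |y| ^ 3 * Real.exp |y| := by
  have h := Complex.norm_exp_sub_sum_le_norm_mul_exp (y : ℂ) 3
  rw [Complex.norm_real, Real.norm_eq_abs] at h
  have h2 : Complex.exp (y : ℂ) - ∑ m ∈ Finset.range 3, (y : ℂ) ^ m / (m.factorial : ℂ) =
      ((Real.exp y - (1 + y + y ^ 2 / 2) : ℝ) : ℂ) := by
    simp only [Finset.sum_range_succ, Finset.sum_range_zero, Nat.factorial]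
    push_cast
    ring
  rwa [h2, Complex.norm_real, Real.norm_eq_abs] at h

theorem core (hY : Measurable Y)
    (hE : ∀ t : ℝ, 0 ≤ t → Integrable (fun ω => Real.exp (t * |Y ω|)) P) (h0 : ∫ ω, Y ω ∂P = 0)
    {p K B : ℝ} (hp : 3 < p)
    (hK : (∫ ω, Real.exp (p / (p - 3) * |Y ω|) ∂P) ^ ((p - 3) / p) ≤ K)
    (hB : (∫ ω, |Y ω| ^ p ∂P) ^ (1 / p) ≤ B) :
    |Real.log (∫ ω, Real.exp (Y ω) ∂P) - (∫ ω, Y ω ^ 2 ∂P) / 2| ≤
      (K + B * (K * B + 1 / 2) ^ 2) * ((∫ ω, |Y ω| ^ p ∂P) ^ (1 / p)) ^ 3 := by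
  set ρ : ℝ := (∫ ω, |Y ω| ^ p ∂P) ^ (1 / p) with hρ
  have hρ0 : 0 ≤ ρ := Real.rpow_nonneg (integral_nonneg fun ω => by positivity) _
  have hK0 : 0 ≤ K := le_trans (Real.rpow_nonneg (integral_nonneg fun ω => by positivity) _) hK
  have hB0 : 0 ≤ B := hρ0.trans hB
  have hexp : Integrable (fun ω => Real.exp (Y ω)) P :=
    int_of_le hE hY.exp (t := 1) zero_le_one fun ω => by
      rw [abs_of_nonneg (Real.exp_pos _).le, one_mul]
      exact Real.exp_le_exp.2 (le_abs_self _)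
  have hYi : Integrable Y P := int_of_le hE hY (t := 1) zero_le_one fun ω => by
    rw [one_mul]
    linarith [Real.add_one_le_exp |Y ω|]
  have hY2 : Integrable (fun ω => Y ω ^ 2) P :=
    int_of_le hE (hY.pow_const 2) (t := 2) (by norm_num) fun ω => by
      rw [abs_pow]
      exact_mod_cast pow_le_exp' 2 (Y ω)
  have hY3 : Integrable (fun ω => |Y ω| ^ 3 * Real.exp |Y ω|) P :=
    int_of_le hE ((hY.abs.pow_const 3).mul hY.abs.exp) (t := 4) (by norm_num) fun ω => by
      rw [abs_of_nonneg (by positivity)]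
      have h1 := pow_le_exp' 3 (Y ω)
      calc |Y ω| ^ 3 * Real.exp |Y ω| ≤ Real.exp ((3 : ℕ) * |Y ω|) * Real.exp |Y ω| :=
            mul_le_mul_of_nonneg_right h1 (Real.exp_pos _).le
        _ = Real.exp (4 * |Y ω|) := by rw [← Real.exp_add]; push_cast; ring_nf
  -- third moment
  have h3 : ∫ ω, |Y ω| ^ 3 * Real.exp |Y ω| ∂P ≤ ρ ^ 3 * K := by
    have h := holder hY hE (k := 3) (by norm_num) (by exact_mod_cast hp) (g := fun ω => Real.exp |Y ω|)
      hY.abs.exp (fun ω => (Real.exp_pos _).le) (fun ω => le_rfl)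
    refine h.trans (mul_le_mul_of_nonneg_left ?_ (by positivity))
    have h' : ∀ ω, (Real.exp |Y ω|) ^ (p / (p - ((3 : ℕ) : ℝ))) =
        Real.exp (p / (p - 3) * |Y ω|) := by
      intro ω
      rw [← Real.exp_mul, mul_comm]
      norm_num
    simp only [h']
    exact_mod_cast hK
  have h2 : ∫ ω, Y ω ^ 2 ∂P ≤ ρ ^ 2 := by
    have h := holder hY hE (k := 2) (by norm_num) (by push_cast; linarith : ((2 : ℕ) : ℝ) < p)
      (g := fun _ => (1 : ℝ)) measurable_const (fun ω => zero_le_one)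
      (fun ω => Real.one_le_exp (abs_nonneg _))
    simp only [mul_one, Real.one_rpow, integral_const, smul_eq_mul, sq_abs, probReal_univ] at h
    exact h
  have hV0 : 0 ≤ ∫ ω, Y ω ^ 2 ∂P := integral_nonneg fun ω => by positivity
  have hdiff : |(∫ ω, Real.exp (Y ω) ∂P - 1) - (∫ ω, Y ω ^ 2 ∂P) / 2| ≤ ρ ^ 3 * K := by
    have e1 : (∫ ω, Real.exp (Y ω) ∂P - 1) - (∫ ω, Y ω ^ 2 ∂P) / 2 =
        ∫ ω, (Real.exp (Y ω) - (1 + Y ω + Y ω ^ 2 / 2)) ∂P := by
      rw [integral_sub hexp, integral_add, integral_add, h0, integral_div]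
      · simp
        ring
      · exact integrable_const _
      · exact hYi
      · exact (integrable_const _).add hYi
      · exact hY2.div_const 2
      · exact ((integrable_const _).add hYi).add (hY2.div_const 2)
    rw [e1]
    calc |∫ ω, (Real.exp (Y ω) - (1 + Y ω + Y ω ^ 2 / 2)) ∂P|
        ≤ ∫ ω, |Real.exp (Y ω) - (1 + Y ω + Y ω ^ 2 / 2)| ∂P := abs_integral_le_integral_abs
      _ ≤ ∫ ω, |Y ω| ^ 3 * Real.exp |Y ω| ∂P := by
          refine integral_mono_of_nonneg (Filter.Eventually.of_forall fun ω => abs_nonneg _) hY3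
            (Filter.Eventually.of_forall fun ω => exp_taylor _)
      _ ≤ ρ ^ 3 * K := h3
  have hu0 : 1 ≤ ∫ ω, Real.exp (Y ω) ∂P := by
    have h := integral_mono (μ := P) (f := fun ω => Y ω + 1) (g := fun ω => Real.exp (Y ω))
      (hYi.add (integrable_const (1 : ℝ))) hexp (fun ω => Real.add_one_le_exp (Y ω))
    have e : ∫ ω, (Y ω + 1) ∂P = 1 := by
      rw [integral_add hYi (integrable_const _), h0]
      simp
    rwa [e] at h
  set E : ℝ := ∫ ω, Real.exp (Y ω) ∂P with hEd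
  set V : ℝ := ∫ ω, Y ω ^ 2 ∂P with hVd
  have hE0 : 0 < E := by linarith
  have hu1 : E - 1 ≤ ρ ^ 2 * (K * B + 1 / 2) := by
    have e1 := (abs_le.1 hdiff).2
    have e2 : ρ ^ 3 * K ≤ ρ ^ 2 * (K * B) := by
      have : ρ ^ 3 * K = ρ ^ 2 * (K * ρ) := by ring
      rw [this]
      exact mul_le_mul_of_nonneg_left (mul_le_mul_of_nonneg_left hB hK0) (by positivity)
    linarith
  have hu2 : (E - 1) ^ 2 ≤ ρ ^ 3 * (B * (K * B + 1 / 2) ^ 2) := by
    calc (E - 1) ^ 2 ≤ (ρ ^ 2 * (K * B + 1 / 2)) ^ 2 :=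
          pow_le_pow_left₀ (by linarith) hu1 2
      _ = ρ ^ 3 * (ρ * (K * B + 1 / 2) ^ 2) := by ring
      _ ≤ ρ ^ 3 * (B * (K * B + 1 / 2) ^ 2) := by
          exact mul_le_mul_of_nonneg_left (mul_le_mul_of_nonneg_right hB (by positivity))
            (by positivity)
  have hl1 : Real.log E ≤ E - 1 := Real.log_le_sub_one_of_pos hE0
  have hl2 : (E - 1) - (E - 1) ^ 2 ≤ Real.log E := by
    have e1 := Real.one_sub_inv_le_log_of_pos hE0
    have e2 : (E - 1) - (E - 1) ^ 2 ≤ 1 - E⁻¹ := by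
      have e3 : 1 - E⁻¹ = (E - 1) / E := by field_simp
      rw [e3, le_div_iff₀ hE0]
      nlinarith [mul_nonneg (mul_nonneg (by linarith : 0 ≤ E - 1) (by linarith : 0 ≤ E - 1))
        (by linarith : 0 ≤ E - 1)]
    linarith
  have e1 := abs_le.1 hdiff
  rw [abs_le]
  constructor
  · nlinarith [e1.1]
  · have : 0 ≤ ρ ^ 3 * (B * (K * B + 1 / 2) ^ 2) := by positivity
    nlinarith [e1.2]

end core

/-! ### the sum -/

/-- B1: the exponential moments of a linear combination of centred variables, to the second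
order. -/
theorem t_B1 : S_B1 := by
  intro ε b N Λ hε
  set p : ℝ := 3 + ε with hp
  have hp3 : 3 < p := by linarith
  have hp0 : 0 < p := by linarith
  set M : ℝ → ℝ := fun t => N * (b (N * (t * Λ)) + b (-(N * (t * Λ)))) with hM
  set K : ℝ := (M (p / (p - 3))) ^ ((p - 3) / p) with hK
  set B : ℝ := (M p) ^ (1 / p) with hB
  refine ⟨(K + B * (K * B + 1 / 2) ^ 2) * ((N * Λ) ^ 3 * (N : ℝ) ^ (3 / p)), ?_⟩
  intro Ω mΩ P hP L hLN hL
  by_cases hnil : L = []
  · subst hnil
    simp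
  -- the combination
  set Y : Ω → ℝ := fun ω => (L.map fun a => a.1 * a.2 ω).sum with hY
  obtain ⟨a₀, ha₀⟩ := List.exists_mem_of_ne_nil L hnil
  have hΛ : 0 ≤ Λ := (abs_nonneg _).trans (hL a₀ ha₀).1
  have hb : ∀ t, 0 ≤ b t := fun t =>
    (integral_nonneg fun ω => (Real.exp_pos _).le).trans ((hL a₀ ha₀).2.2.2 t).2
  have hYm : Measurable Y := by
    have : ∀ l : List (ℝ × (Ω → ℝ)), (∀ a ∈ l, Measurable a.2) →
        Measurable (fun ω => (l.map fun a => a.1 * a.2 ω).sum) := by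
      intro l
      induction l with
      | nil => intro _; simp
      | cons a l ih =>
        intro h
        simp only [List.map_cons, List.sum_cons]
        exact ((h a List.mem_cons_self).const_mul _).add
          (ih fun b hb => h b (List.mem_cons_of_mem _ hb))
    exact this L fun a ha => (hL a ha).2.1
  -- exponential moments of the absolute value of one variable
  have hone : ∀ a ∈ L, ∀ t : ℝ, 0 ≤ t → Integrable (fun ω => Real.exp (t * |a.2 ω|)) P ∧
      ∫ ω, Real.exp (t * |a.2 ω|) ∂P ≤ b t + b (-t) := by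
    intro a ha t ht
    obtain ⟨_, hm, _, he⟩ := hL a ha
    have h1 : ∀ ω, Real.exp (t * |a.2 ω|) ≤ Real.exp (t * a.2 ω) + Real.exp (-t * a.2 ω) := by
      intro ω
      have := Real.exp_abs_le (t * a.2 ω)
      rwa [abs_mul, abs_of_nonneg ht, ← neg_mul] at this
    have h2 : Integrable (fun ω => Real.exp (t * |a.2 ω|)) P := by
      refine ((he t).1.add (he (-t)).1).mono' (hm.abs.const_mul t).exp.aestronglyMeasurable
        (Filter.Eventually.of_forall fun ω => ?_)
      rw [Real.norm_eq_abs, abs_of_nonneg (Real.exp_pos _).le]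
      exact h1 ω
    refine ⟨h2, ?_⟩
    calc ∫ ω, Real.exp (t * |a.2 ω|) ∂P ≤ ∫ ω, (Real.exp (t * a.2 ω) + Real.exp (-t * a.2 ω)) ∂P :=
          integral_mono h2 ((he t).1.add (he (-t)).1) h1
      _ = _ := integral_add (he t).1 (he (-t)).1
      _ ≤ _ := add_le_add (he t).2 (he (-t)).2
  have hYabs : ∀ (t : ℝ) (ω : Ω), 0 ≤ t → t * |Y ω| ≤ (L.map fun a => t * Λ * |a.2 ω|).sum := by
    intro t ω ht
    have : ∀ l : List (ℝ × (Ω → ℝ)), (∀ a ∈ l, |a.1| ≤ Λ) →
        t * |(l.map fun a => a.1 * a.2 ω).sum| ≤ (l.map fun a => t * Λ * |a.2 ω|).sum := by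
      intro l
      induction l with
      | nil => intro _; simp
      | cons a l ih =>
        intro h
        simp only [List.map_cons, List.sum_cons]
        have h1 := ih fun b hb => h b (List.mem_cons_of_mem _ hb)
        have h2 : |a.1 * a.2 ω| ≤ Λ * |a.2 ω| := by
          rw [abs_mul]
          exact mul_le_mul_of_nonneg_right (h a List.mem_cons_self) (abs_nonneg _)
        calc t * |a.1 * a.2 ω + (l.map fun a => a.1 * a.2 ω).sum|
            ≤ t * (|a.1 * a.2 ω| + |(l.map fun a => a.1 * a.2 ω).sum|) :=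
              mul_le_mul_of_nonneg_left (abs_add_le _ _) ht
          _ = t * |a.1 * a.2 ω| + t * |(l.map fun a => a.1 * a.2 ω).sum| := by ring
          _ ≤ t * (Λ * |a.2 ω|) + (l.map fun a => t * Λ * |a.2 ω|).sum :=
              add_le_add (mul_le_mul_of_nonneg_left h2 ht) h1
          _ = _ := by ring
    exact this L fun a ha => (hL a ha).1
  -- exponential moments of the absolute value of the sum
  have hall : ∀ t : ℝ, 0 ≤ t → Integrable (fun ω => Real.exp (t * |Y ω|)) P ∧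
      ∫ ω, Real.exp (t * |Y ω|) ∂P ≤ M t := by
    intro t ht
    have hNt : 0 ≤ (N : ℝ) * (t * Λ) := by positivity
    have h1 : ∀ ω, Real.exp (t * |Y ω|) ≤
        (L.map fun a => Real.exp ((N : ℝ) * (t * Λ) * |a.2 ω|)).sum := by
      intro ω
      refine (Real.exp_le_exp.2 (hYabs t ω ht)).trans ?_
      have := sum_bound (l := L) hnil (x := fun a => t * Λ * |a.2 ω|)
        (fun a _ => by positivity) hLN Real.exp (fun y _ => (Real.exp_pos y).le)
        (fun y z _ hyz => Real.exp_le_exp.2 hyz)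
      simpa only [mul_assoc] using this
    obtain ⟨h2, h3⟩ := int_list (P := P) (l := L)
      (f := fun a ω => Real.exp ((N : ℝ) * (t * Λ) * |a.2 ω|)) fun a ha => (hone a ha _ hNt).1
    have h4 : Integrable (fun ω => Real.exp (t * |Y ω|)) P := by
      refine h2.mono' (hYm.abs.const_mul t).exp.aestronglyMeasurable
        (Filter.Eventually.of_forall fun ω => ?_)
      rw [Real.norm_eq_abs, abs_of_nonneg (Real.exp_pos _).le]
      exact h1 ω
    refine ⟨h4, ?_⟩
    calc ∫ ω, Real.exp (t * |Y ω|) ∂P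
        ≤ ∫ ω, (L.map fun a => Real.exp ((N : ℝ) * (t * Λ) * |a.2 ω|)).sum ∂P :=
          integral_mono h4 h2 h1
      _ = _ := h3
      _ ≤ L.length * (b (N * (t * Λ)) + b (-(N * (t * Λ)))) :=
          sum_const L _ _ fun a ha => (hone a ha _ hNt).2
      _ ≤ M t := mul_le_mul_of_nonneg_right (by exact_mod_cast hLN) (add_nonneg (hb _) (hb _))
  have hE : ∀ t : ℝ, 0 ≤ t → Integrable (fun ω => Real.exp (t * |Y ω|)) P :=
    fun t ht => (hall t ht).1
  have hone' : ∀ a ∈ L, ∀ t : ℝ, 0 ≤ t → Integrable (fun ω => Real.exp (t * |a.2 ω|)) P :=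
    fun a ha t ht => (hone a ha t ht).1
  have hai : ∀ a ∈ L, Integrable a.2 P := fun a ha =>
    int_of_le (hone' a ha) (hL a ha).2.1 (t := 1) zero_le_one fun ω => by
      rw [one_mul]
      linarith [Real.add_one_le_exp |a.2 ω|]
  have hap : ∀ a ∈ L, Integrable (fun ω => |a.2 ω| ^ p) P := fun a ha =>
    int_of_le (hone' a ha) ((hL a ha).2.1.abs.pow_const p) (t := p) hp0.le fun ω => by
      rw [abs_of_nonneg (by positivity)]
      exact rpow_le_exp (abs_nonneg _) hp0.le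
  have hYp : Integrable (fun ω => |Y ω| ^ p) P :=
    int_of_le hE (hYm.abs.pow_const p) (t := p) hp0.le fun ω => by
      rw [abs_of_nonneg (by positivity)]
      exact rpow_le_exp (abs_nonneg _) hp0.le
  have hY0 : ∫ ω, Y ω ∂P = 0 := by
    have h := (int_list (P := P) (l := L) (f := fun a ω => a.1 * a.2 ω)
      fun a ha => (hai a ha).const_mul _).2
    rw [hY, h]
    refine List.sum_eq_zero fun x hx => ?_
    obtain ⟨a, ha, rfl⟩ := List.mem_map.1 hx
    rw [integral_const_mul, (hL a ha).2.2.1, mul_zero]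
  have hint1 : Integrable (fun ω => Real.exp (Y ω)) P :=
    int_of_le hE hYm.exp (t := 1) zero_le_one fun ω => by
      rw [abs_of_nonneg (Real.exp_pos _).le, one_mul]
      exact Real.exp_le_exp.2 (le_abs_self _)
  have hint2 : Integrable (fun ω => Y ω ^ 2) P :=
    int_of_le hE (hYm.pow_const 2) (t := 2) (by norm_num) fun ω => by
      rw [abs_pow]
      exact_mod_cast pow_le_exp' 2 (Y ω)
  refine ⟨hint1, hint2, ?_⟩
  have hKb : (∫ ω, Real.exp (p / (p - 3) * |Y ω|) ∂P) ^ ((p - 3) / p) ≤ K :=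
    Real.rpow_le_rpow (integral_nonneg fun ω => (Real.exp_pos _).le)
      (hall _ (div_nonneg hp0.le (by linarith))).2 (div_nonneg (by linarith) hp0.le)
  have hBb : (∫ ω, |Y ω| ^ p ∂P) ^ (1 / p) ≤ B := by
    refine Real.rpow_le_rpow (integral_nonneg fun ω => by positivity) ?_ (by positivity)
    refine le_trans (integral_mono hYp (hE p hp0.le) fun ω => ?_) (hall p hp0.le).2
    exact rpow_le_exp (abs_nonneg _) hp0.le
  have hcore := core hYm hE hY0 hp3 hKb hBb
  refine hcore.trans ?_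
  have hK0 : 0 ≤ K := le_trans (Real.rpow_nonneg (integral_nonneg fun ω => by positivity) _) hKb
  have hB0 : 0 ≤ B := le_trans (Real.rpow_nonneg (integral_nonneg fun ω => by positivity) _) hBb
  rw [mul_assoc]
  refine mul_le_mul_of_nonneg_left ?_ (by positivity)
  -- the moments of order `p`
  set R : (ℝ × (Ω → ℝ)) → ℝ := fun a => ∫ ω, |a.2 ω| ^ p ∂P with hR
  have hR0 : ∀ a, 0 ≤ R a := fun a => integral_nonneg fun ω => by positivity
  have h5 : ∫ ω, |Y ω| ^ p ∂P ≤ (N * Λ) ^ p * (L.map R).sum := by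
    obtain ⟨h2, h3⟩ := int_list (P := P) (l := L)
      (f := fun a ω => (N * Λ) ^ p * |a.2 ω| ^ p) fun a ha => (hap a ha).const_mul _
    calc ∫ ω, |Y ω| ^ p ∂P ≤ ∫ ω, (L.map fun a => (N * Λ) ^ p * |a.2 ω| ^ p).sum ∂P := by
          refine integral_mono hYp h2 fun ω => ?_
          have h6 := hYabs 1 ω zero_le_one
          rw [one_mul] at h6
          refine (Real.rpow_le_rpow (abs_nonneg _) h6 hp0.le).trans ?_
          have h7 := sum_bound (l := L) hnil (x := fun a => 1 * Λ * |a.2 ω|)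
            (fun a _ => by positivity) hLN (fun y => y ^ p) (fun y hy => Real.rpow_nonneg hy _)
            (fun y z hy hyz => Real.rpow_le_rpow hy hyz hp0.le)
          refine h7.trans (sum_mono L _ _ fun a _ => le_of_eq ?_)
          rw [← Real.mul_rpow (by positivity) (abs_nonneg _)]
          congr 1
          ring
      _ = _ := h3
      _ = (N * Λ) ^ p * (L.map R).sum := by
          rw [← List.sum_map_mul_left]
          congr 1
          refine List.map_congr_left fun a _ => ?_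
          rw [integral_const_mul]
  have hNΛ : 0 ≤ (N : ℝ) * Λ := by positivity
  have hRs : 0 ≤ (L.map R).sum := sum_nn L R fun a _ => hR0 a
  have h8 : ((∫ ω, |Y ω| ^ p ∂P) ^ (1 / p)) ^ 3 ≤ (N * Λ) ^ 3 * ((L.map R).sum) ^ (3 / p) := by
    have h9 : ((∫ ω, |Y ω| ^ p ∂P) ^ (1 / p)) ^ 3 = (∫ ω, |Y ω| ^ p ∂P) ^ (3 / p) := by
      rw [← Real.rpow_natCast, ← Real.rpow_mul (integral_nonneg fun ω => by positivity)]
      congr 1
      push_cast
      field_simp
    rw [h9]
    refine (Real.rpow_le_rpow (integral_nonneg fun ω => by positivity) h5 (by positivity)).trans ?_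
    rw [Real.mul_rpow (Real.rpow_nonneg hNΛ _) hRs, ← Real.rpow_mul hNΛ]
    have : p * (3 / p) = ((3 : ℕ) : ℝ) := by
      push_cast
      field_simp
    rw [this, Real.rpow_natCast]
  refine h8.trans ?_
  rw [mul_assoc]
  refine mul_le_mul_of_nonneg_left ?_ (by positivity)
  have h10 := sum_bound (l := L) hnil (x := R) (fun a _ => hR0 a) hLN (fun y => y ^ (3 / p))
    (fun y hy => Real.rpow_nonneg hy _) (fun y z hy hyz => Real.rpow_le_rpow hy hyz (by positivity))
  refine h10.trans (le_of_eq ?_)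
  rw [← List.sum_map_mul_left]
  congr 1
  refine List.map_congr_left fun a _ => ?_
  rw [Real.mul_rpow (Nat.cast_nonneg _) (hR0 a)]

end Pool.Agent.H251.GC.B1
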